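import Pool.Agent.Helper31.KBC.Tr
import Pool.Agent.Helper77.KBL.Cost

/-!
# Kobon triangles: every asked group has a payer
-/

namespace Pool.Agent.Helper31.KBC

open Pool.Agent.Helper23.KB Finset

variable {n : ℕ} (K : KM n)

/-- the apex seen from the slot -/
theorem lead_range {s : K.St} {β : K.H} {o : Bool} (hv : K.vf β = true)
    (hl : K.Lead s (K.sl o β)) : ∃ j, (∀ i ≤ j, K.tr o ((K.fw)^[i] β) = true) ∧
    K.cost (K.rv ((K.fw)^[j] β)) = K.cost (K.rv (K.r (!s.2) s.1)) := by
  obtain ⟨hs, k, hr⟩ := lead_reach K hl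
  have hm := vf_m K hv
  have hk : 0 < k := by
    rcases Nat.eq_zero_or_pos k with rfl | h
    · exfalso
      have h1 := hr.2
      have h2 := hs.2
      simp only [Function.iterate_zero, id_eq] at h1
      rw [h1] at h2
      have h3 : K.m (K.sl o β).1 = K.m β := by
        show K.m (K.r o (K.r o β)) = _
        rw [K.m_r, K.m_r]
      omega
    · exact h
  obtain ⟨h1, h2⟩ := range K hs hk hr
  rw [bet_sl] at h1 h2
  refine ⟨k / 2, h1, ?_⟩
  have e : K.r s.2 (a1 K s) = a0 K s := a1_a0 K hs.1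
  have e' : a0 K s = K.rv (K.r (!s.2) s.1) := rfl
  rw [← e']
  split at h2
  · have h3 : K.rv ((K.fw)^[k / 2] β) = a1 K s := h2.1
    rw [h3, ← e, Helper77.KBL.cost_r]
  · have h3 : K.rv ((K.fw)^[k / 2] β) = a0 K s := h2.1
    rw [h3]

/-- **the nearer apex is not costly** -/
theorem nearer {s s' : K.St} {β : K.H} (hv : K.vf β = true)
    (hl : K.Lead s (K.sl true β)) (hl' : K.Lead s' (K.sl false β)) :
    K.nc s = true ∨ K.nc s' = true := by
  obtain ⟨j, h1, h2⟩ := lead_range K hv hl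
  obtain ⟨j', h1', h2'⟩ := lead_range K hv hl'
  unfold KM.nc
  rcases le_total j j' with h | h
  · left
    rw [← h2, Bool.not_eq_true']
    cases hc : K.cost (K.rv ((K.fw)^[j] β))
    · rfl
    · exfalso
      have hd := Helper77.KBL.cost_Dd hc
      rw [K.Dd_rv] at hd
      have : K.Dd ((K.fw)^[j] β) = true := (K.Dd_iff true _).2 ⟨h1 j le_rfl, h1' j h⟩
      rw [this] at hd
      exact absurd hd (by simp)
  · right
    rw [← h2', Bool.not_eq_true']
    cases hc : K.cost (K.rv ((K.fw)^[j'] β))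
    · rfl
    · exfalso
      have hd := Helper77.KBL.cost_Dd hc
      rw [K.Dd_rv] at hd
      have : K.Dd ((K.fw)^[j'] β) = true := (K.Dd_iff true _).2 ⟨h1 j' h, h1' j' le_rfl⟩
      rw [this] at hd
      exact absurd hd (by simp)

theorem lead_of_rc {β : K.H} {o : Bool} (hv : K.vf β = true) (h : K.clm o β = true) :
    ∃ s, K.Lead s (K.sl o β) := by
  obtain ⟨s, k, hs, hr⟩ := (rc_iff' K _).1 h
  refine ⟨s, (start_eq K s).1 hs, ⟨k, (wk_iff K s k _).2 hr⟩, ?_⟩
  rintro ⟨-, h3⟩
  have h4 : K.m (K.sl o β).1 = K.m β := by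
    show K.m (K.r o (K.r o β)) = _
    rw [K.m_r, K.m_r]
  have := vf_m K hv
  omega

theorem lead_unique {s t t' : K.St} (h : K.Lead s t) (h' : K.Lead s t') : t = t' := by
  obtain ⟨h1, ⟨k, h2⟩, h3⟩ := h
  obtain ⟨-, ⟨k', h2'⟩, h3'⟩ := h'
  have r1 := (wk_iff K s k t).1 h2
  have r2 := (wk_iff K s k' t').1 h2'
  have hk : k = k' := by
    rcases Nat.lt_trichotomy k k' with hlt | he | hlt
    · have := r2.1 k hlt
      rw [r1.2] at this
      exact absurd this h3
    · exact he
    · have := r1.1 k' hlt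
      rw [r2.2] at this
      exact absurd this h3'
  rw [← r1.2, ← r2.2, hk]

theorem sl_inj {o o' : Bool} {β β' : K.H} (h : K.sl o β = K.sl o' β') : o = o' ∧ β = β' := by
  have h2 : o = o' := congrArg Prod.snd h
  subst h2
  have h1 : K.r o (K.r o β) = K.r o (K.r o β') := congrArg Prod.fst h
  exact ⟨rfl, K.r_inj o (K.r_inj o h1)⟩

theorem fg_vf {β : K.H} (h : K.fg β = true) : K.vf β = true ∧ K.clm true β = true ∧
    K.clm false β = true := by
  unfold KM.fg at h
  simp only [Bool.and_eq_true] at h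
  exact ⟨h.1.1.1.1.1, h.1.1.1.2, h.1.1.2⟩

/-- every asked group has a payer -/
theorem exists_payer {β : K.H} (h : K.fg β = true) :
    ∃ s o, K.Lead s (K.sl o β) ∧ K.pay s = true := by
  classical
  obtain ⟨hv, h1, h2⟩ := fg_vf K h
  obtain ⟨s, hs⟩ := lead_of_rc K hv h1
  obtain ⟨s', hs'⟩ := lead_of_rc K hv h2
  cases hn : K.nc s
  · have hn' : K.nc s' = true := by
      rcases nearer K hv hs hs' with h3 | h3
      · rw [hn] at h3; exact absurd h3 (by simp)
      · exact h3
    refine ⟨s', false, hs', (K.pay_iff s').2 ⟨β, false, h, hs', hn', fun _ s'' hs'' => ?_⟩⟩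
    obtain ⟨q1, k1, r1⟩ := lead_reach K hs
    obtain ⟨q2, k2, r2⟩ := lead_reach K hs''
    rw [(start_unique K q2 q1 r2 r1).2]
    exact hn
  · exact ⟨s, true, hs, (K.pay_iff s).2 ⟨β, true, h, hs, hn, fun h3 => absurd h3 (by simp)⟩⟩

theorem tPay : StPay := by
  intro n K
  classical
  have h1 : ∑ h, (K.fg h).toNat = (univ.filter (fun h => K.fg h = true)).card := by
    rw [Finset.card_filter]
    refine Finset.sum_congr rfl fun h _ => ?_
    cases K.fg h <;> simp
  have h2 : ∑ h, ((K.pay (h, true)).toNat + (K.pay (h, false)).toNat) =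
      (univ.filter (fun s : K.H × Bool => K.pay s = true)).card := by
    rw [Finset.card_filter, sum_st]
    refine Finset.sum_congr rfl fun h _ => ?_
    cases K.pay (h, true) <;> cases K.pay (h, false) <;> simp
  rw [h1, h2]
  have hex : ∀ β : K.H, K.fg β = true → ∃ s o, K.Lead s (K.sl o β) ∧ K.pay s = true :=
    fun β h => exists_payer K h
  choose! f o hf using hex
  refine Finset.card_le_card_of_injOn f ?_ ?_
  · intro β hβ
    have := (Finset.mem_filter.1 (Finset.mem_coe.1 hβ)).2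
    exact Finset.mem_coe.2 (Finset.mem_filter.2 ⟨Finset.mem_univ _, (hf β this).2⟩)
  · intro β hβ β' hβ' he
    have g1 := (Finset.mem_filter.1 (Finset.mem_coe.1 hβ)).2
    have g2 := (Finset.mem_filter.1 (Finset.mem_coe.1 hβ')).2
    have l1 := (hf β g1).1
    have l2 := (hf β' g2).1
    rw [← he] at l2
    exact (sl_inj K (lead_unique K l1 l2)).2

end Pool.Agent.Helper31.KBC
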