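import Pool.Agent.Helper31.KBC.Range
import Pool.Agent.Helper23.KB.St

/-!
# Kobon triangles: the claims statements in the common interface
-/

namespace Pool.Agent.Helper31.KBC

open Pool.Agent.Helper23.KB Finset

variable {n : ℕ} (K : KM n)

theorem r_eq (o : Bool) (h : K.H) : Helper77.KBL.r K o h = K.r o h := rfl
theorem tr_eq (o : Bool) (h : K.H) : Helper77.KBL.tr K o h = K.tr o h := rfl
theorem op_eq (h : K.H) : Helper77.KBL.op K h = K.op h := rfl
theorem fw_eq : fw K = K.fw := rfl

theorem cont_eq (s : K.St) : cont K s ↔ K.cont s := Iff.rfl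
theorem step_eq (s : K.St) : step K s = K.nextS s := rfl
theorem start_eq (s : K.St) : start K s ↔ K.start s := by
  unfold start val KM.start
  rw [tr_eq]
  exact and_comm

theorem wk_iff (s : K.St) (k : ℕ) (t : K.St) : K.Wk s k t ↔ reach K s k t := by
  induction k generalizing t with
  | zero =>
    constructor
    · intro h
      exact ⟨fun j hj => absurd hj (by omega), h.symm⟩
    · intro h
      exact h.2.symm
  | succ k ih =>
    constructor
    · rintro ⟨u, hu, hc, rfl⟩
      obtain ⟨h1, h2⟩ := (ih u).1 hu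
      refine ⟨fun j hj => ?_, ?_⟩
      · rcases Nat.lt_or_ge j k with h | h
        · exact h1 j h
        · obtain rfl : j = k := by omega
          rw [h2]; exact hc
      · rw [Function.iterate_succ_apply', h2]
        rfl
    · rintro ⟨h1, h2⟩
      refine ⟨(step K)^[k] s, (ih _).2 ⟨fun j hj => h1 j (by omega), rfl⟩, h1 k (by omega), ?_⟩
      rw [← h2, Function.iterate_succ_apply']
      rfl

theorem rc_iff' (t : K.St) : K.rc t = true ↔ Claimed K t := by
  rw [K.rc_iff]
  unfold KM.Rc Claimed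
  constructor
  · rintro ⟨s, k, hs, hw⟩
    exact ⟨s, k, (start_eq K s).2 hs, (wk_iff K s k t).1 hw⟩
  · rintro ⟨s, k, hs, hw⟩
    exact ⟨s, k, (start_eq K s).1 hs, (wk_iff K s k t).2 hw⟩

theorem tNS : StNS := by
  intro n K s k t hs hw
  obtain ⟨h1, h2⟩ := (wk_iff K s (k + 1) t).1 hw
  rw [← h2]
  exact no_simple K ((start_eq K s).2 hs) (k + 1) (by omega) h1

theorem tUq : StUq := by
  intro n K s s' t k k' hs hs' hw hw'
  obtain ⟨h1, h2⟩ := start_unique K ((start_eq K s).2 hs) ((start_eq K s').2 hs')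
    ((wk_iff K s k t).1 hw) ((wk_iff K s' k' t).1 hw')
  exact ⟨h2, h1⟩

theorem tEx : StEx := by
  intro n K s hs
  obtain ⟨k, t, ht, hr⟩ := exists_term K ((start_eq K s).2 hs)
  exact ⟨t, hs, ⟨k, (wk_iff K s k t).2 hr⟩, not_cont_of_term K ht⟩

theorem lead_reach {s t : K.St} (h : K.Lead s t) : start K s ∧ ∃ k, reach K s k t := by
  obtain ⟨h1, ⟨k, h2⟩, -⟩ := h
  exact ⟨(start_eq K s).2 h1, k, (wk_iff K s k t).1 h2⟩

theorem bet_sl (o : Bool) (β : K.H) : bet K (K.sl o β) = β := by
  show K.r (!o) (K.r (!o) (K.r o (K.r o β))) = β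
  rw [K.r_r, K.r_r]

theorem tRange : StRange := by
  intro n K s β o hv hl
  obtain ⟨hs, k, hr⟩ := lead_reach K hl
  have hm : K.m β = 4 := by
    unfold KM.vf at hv
    simp only [Bool.and_eq_true, decide_eq_true_eq] at hv
    exact hv.1
  have hk : 0 < k := by
    rcases Nat.eq_zero_or_pos k with rfl | h
    · exfalso
      have h1 := hr.2
      have h2 := hs.2
      simp only [Function.iterate_zero, id_eq] at h1
      rw [h1] at h2
      have h3 : K.m (K.sl o β).1 = K.m β := by
        show K.m (K.r o (K.r o β)) = _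
        rw [K.m_r, K.m_r]
      omega
    · exact h
  obtain ⟨h1, h2, e, h3, h4⟩ := range' K hs hk hr
  rw [bet_sl] at h1 h2
  refine ⟨⟨k / 2, h1, h2⟩, ⟨e, h4, h3⟩⟩

/-! ### the count -/

theorem sum_st (f : K.H × Bool → ℕ) : ∑ s, f s = ∑ h, (f (h, true) + f (h, false)) := by
  rw [Fintype.sum_prod_type]
  refine Finset.sum_congr rfl fun h _ => ?_
  simp

theorem card_term : (univ.filter (fun t => term K t)).card =
    ∑ h, (K.Sg h).toNat + ∑ h, K.nsl h := by
  rw [Finset.card_filter, sum_st, ← Finset.sum_add_distrib]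
  refine Finset.sum_congr rfl fun h _ => ?_
  have e1 : K.nx.symm (K.nx h) = h := by simp
  unfold term val KM.Sg KM.nsl KM.slt KM.Dd
  simp only [tr_eq, r_eq, Bool.not_true, Bool.not_false, KM.r_true, KM.r_false, KM.tr_true,
    KM.tr_false, e1]
  by_cases hM : 4 ≤ K.m h <;> cases hA : K.tri h <;> cases hB : K.tri (K.nx.symm h) <;>
    cases hC : K.tri (K.nx.symm (K.nx.symm h)) <;> cases hC' : K.tri (K.nx h) <;>
    simp [hM]

theorem card_start : (univ.filter (fun t => start K t)).card =
    ∑ h, ((K.stb (h, true)).toNat + (K.stb (h, false)).toNat) := by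
  rw [Finset.card_filter, sum_st]
  refine Finset.sum_congr rfl fun h _ => ?_
  unfold start val KM.stb
  simp only [tr_eq, Bool.not_true, Bool.not_false, KM.tr_true, KM.tr_false]
  by_cases hM : K.m h = 2 <;> cases hA : K.tri h <;> cases hB : K.tri (K.nx.symm h) <;>
    simp [hM]

open Classical in
theorem card_un : (univ.filter (fun t => term K t ∧ ¬ Claimed K t)).card =
    ∑ h, (K.un h).toNat + ∑ h, ((K.slt (h, true) && !(K.rc (h, true))).toNat +
        (K.slt (h, false) && !(K.rc (h, false))).toNat) := by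
  rw [Finset.card_filter, sum_st, ← Finset.sum_add_distrib]
  refine Finset.sum_congr rfl fun h _ => ?_
  have e1 : K.nx.symm (K.nx h) = h := by simp
  have r1 := rc_iff' K (h, true)
  have r2 := rc_iff' K (h, false)
  rw [← r1, ← r2]
  unfold term val KM.un KM.Sg KM.slt KM.Dd
  simp only [tr_eq, r_eq, Bool.not_true, Bool.not_false, KM.r_true, KM.r_false, KM.tr_true,
    KM.tr_false, e1]
  by_cases hM : 4 ≤ K.m h <;> cases hA : K.tri h <;> cases hB : K.tri (K.nx.symm h) <;>
    cases hC : K.tri (K.nx.symm (K.nx.symm h)) <;> cases hC' : K.tri (K.nx h) <;>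
    cases hR1 : K.rc (h, true) <;> cases hR2 : K.rc (h, false) <;>
    simp [hM, hR1, hR2]

theorem tCount : StCount := by
  intro n K
  classical
  have h := count K
  rw [card_term, card_start, card_un] at h
  omega

/-! ### full vertices -/

theorem vf_m {h : K.H} (hv : K.vf h = true) : K.m h = 4 := by
  unfold KM.vf at hv
  simp only [Bool.and_eq_true, decide_eq_true_eq] at hv
  exact hv.1

theorem vf_tri {h : K.H} (hv : K.vf h = true) : K.tri h = true := by
  unfold KM.vf at hv
  simp only [Bool.and_eq_true, decide_eq_true_eq] at hv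
  exact hv.2 0

theorem vf_nx {h : K.H} (hv : K.vf h = true) : K.vf (K.nx h) = true := by
  unfold KM.vf at hv ⊢
  simp only [Bool.and_eq_true, decide_eq_true_eq] at hv ⊢
  obtain ⟨hm, ht⟩ := hv
  refine ⟨by rw [K.m_nx, hm], fun k => ?_⟩
  rw [← Function.iterate_succ_apply]
  rcases Nat.lt_or_ge (k : ℕ) 7 with hk | hk
  · exact ht ⟨(k : ℕ) + 1, by omega⟩
  · have hk' : (k : ℕ) = 7 := by omega
    have hp := K.per h
    rw [hm] at hp
    rw [hk']
    show K.tri (K.nx^[2 * 4] h) = true
    rw [hp]
    exact ht 0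

theorem vf_iter {h : K.H} (hv : K.vf h = true) (k : ℕ) : K.vf (K.nx^[k] h) = true := by
  induction k with
  | zero => exact hv
  | succ k ih => rw [Function.iterate_succ_apply']; exact vf_nx K ih

theorem vf_symm {h : K.H} (hv : K.vf h = true) : K.vf (K.nx.symm h) = true := by
  have h1 : K.nx.symm h = K.nx^[7] h := by
    apply K.nx.injective
    rw [Equiv.apply_symm_apply, ← Function.iterate_succ_apply' (K.nx : K.H → K.H) 7 h]
    have hp := K.per h
    rw [vf_m K hv] at hp
    exact hp.symm
  rw [h1]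
  exact vf_iter K hv 7

theorem vf_r (o : Bool) {h : K.H} (hv : K.vf h = true) : K.vf (K.r o h) = true := by
  cases o
  · exact vf_symm K hv
  · exact vf_nx K hv

theorem vf_Dd {h : K.H} (hv : K.vf h = true) : K.Dd h = true := by
  rw [KM.Dd_iff K true]
  exact ⟨vf_tri K hv, vf_tri K (vf_symm K hv)⟩

/-! ### payers -/

theorem tPayF : StPayF := by
  intro n K s hp
  obtain ⟨β, o, hfg, hl, hnc, -⟩ := (K.pay_iff s).1 hp
  obtain ⟨hs, k, hr⟩ := lead_reach K hl
  unfold KM.fg at hfg
  simp only [Bool.and_eq_true, Bool.not_eq_true', decide_eq_false_iff_not] at hfg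
  obtain ⟨⟨⟨⟨⟨hv, -⟩, -⟩, -⟩, hn1⟩, hn2⟩ := hfg
  have hvf := hv
  unfold KM.vf at hv
  simp only [Bool.and_eq_true, decide_eq_true_eq] at hv
  obtain ⟨hm, htri⟩ := hv
  have hsm : K.m (K.sl o β).1 = 4 := by
    show K.m (K.r o (K.r o β)) = _
    rw [K.m_r, K.m_r, hm]
  -- at least two steps
  have hk0 : k ≠ 0 := by
    rintro rfl
    have h1 := hr.2
    have h2 := hs.2
    simp only [Function.iterate_zero, id_eq] at h1
    rw [h1] at h2
    omega
  have hk1 : k ≠ 1 := by
    rintro rfl
    have h1 := hr.2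
    simp only [Function.iterate_one] at h1
    have h2 := prev_step K s
    rw [h1] at h2
    have h3 : s.1 = K.rv (K.r o β) := by
      rw [← h2]
      show K.rv (K.r (!o) (K.r o (K.r o β))) = _
      rw [K.r_r]
    have h4 := hs.2
    rw [h3] at h4
    cases o
    · exact hn2 h4
    · exact hn1 h4
  have hk : 2 ≤ k := by omega
  obtain ⟨hc, he⟩ := hr
  have c0 := hc 0 (by omega)
  have c1 := hc 1 (by omega)
  simp only [Function.iterate_zero, id_eq] at c0
  simp only [Function.iterate_one] at c1
  have v0 := hs.1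
  have v1 := val_step K c0
  have v2 := val_step K c1
  have e1 : (step K s).1 = K.r (!s.2) (K.rv s.1) := rfl
  have e1' : (step K s).2 = !s.2 := rfl
  have e2 : (step K (step K s)).1 = K.r s.2 (K.rv (K.r (!s.2) (K.rv s.1))) := by
    show K.r (!!s.2) _ = _
    rw [Bool.not_not]
    rfl
  have e2' : (step K (step K s)).2 = s.2 := by
    show (!!s.2) = _
    rw [Bool.not_not]
  have m1 : K.m (K.rv s.1) = 3 := by
    have := m_three K hs k hc 1 (by omega) (by omega)
    simp only [Function.iterate_one] at this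
    rw [e1, K.m_r] at this
    exact this
  have m2 : K.m (K.rv (K.r (!s.2) (K.rv s.1))) ≠ 2 := by
    have := no_simple K hs 2 (by omega) (fun j hj => hc j (by omega))
    have e : ((step K)^[2] s).1 = K.r s.2 (K.rv (K.r (!s.2) (K.rv s.1))) := e2
    rw [e, K.m_r] at this
    exact this
  have d2 : K.Dd (K.r s.2 (K.rv (K.r (!s.2) (K.rv s.1)))) = true := by
    rcases Nat.lt_or_ge 2 k with h | h
    · have c2 := hc 2 h
      have c2' : cont K (step K (step K s)) := c2
      rw [KM.Dd_iff K s.2, ← e2]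
      refine ⟨?_, ?_⟩
      · have := c2'.1; rw [e2'] at this; exact this
      · have := v2; unfold val at this; rw [e2'] at this; exact this
    · obtain rfl : k = 2 := by omega
      have he' : step K (step K s) = K.sl o β := he
      rw [← e2, he']
      show K.Dd (K.r o (K.r o β)) = true
      exact vf_Dd K (vf_r K o (vf_r K o hvf))
  refine ⟨hs.2, ?_, m1, ?_, ?_, d2, hnc⟩
  · rw [KM.Dd_iff K s.2]
    exact ⟨c0.1, v0⟩
  · rw [KM.Dd_iff K (!s.2), Bool.not_not, ← e1]
    refine ⟨c1.1, ?_⟩
    have := v1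
    unfold val at this
    rw [e1', Bool.not_not] at this
    exact this
  · have := K.two_le (K.rv (K.r (!s.2) (K.rv s.1)))
    omega

end Pool.Agent.Helper31.KBC
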