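import Pool.Agent.Helper30.KB.StW

/-!
# The wedge lemma
-/

namespace Pool.Agent.Helper31.KBC

open Finset Pool.Agent.Helper30.KO Pool.Agent.Helper30.KB

variable {n : ℕ} {a : Arr n}

/-- the next half-edge at a simple vertex -/
theorem nx_two {h : HE a} (hc : h.S.card = 2) : h.nx.i ≠ h.i ∧ a.X h.i h.nx.i = h.x ∧
    h.nx.x = h.x ∧ h.nx.b = (if h.i < h.nx.i then h.b else !h.b) := by
  classical
  obtain ⟨p, q, hpq, hS⟩ := Finset.card_eq_two.1 hc
  obtain ⟨j, hji, hSj⟩ : ∃ j, j ≠ h.i ∧ h.S = {h.i, j} := by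
    have hi := h.i_mem
    rw [hS] at hi
    simp only [mem_insert, mem_singleton] at hi
    rcases hi with hi | hi
    · exact ⟨q, by rw [hi]; exact hpq.symm, by rw [hS, hi]⟩
    · exact ⟨p, by rw [hi]; exact hpq, by rw [hS, hi, Finset.pair_comm]⟩
  have hj : j ∈ h.S := by rw [hSj]; simp
  have hX : a.X h.i j = h.x := X_of_mem a h.i_mem hj hji.symm
  rcases lt_or_gt_of_ne hji with hlt | hlt
  · -- `j < i`: wrap
    have e := nx_wrap (h := h) hj (by
      intro k hk; rw [hSj] at hk; simp only [mem_insert, mem_singleton] at hk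
      rcases hk with rfl | rfl
      · exact le_rfl
      · exact hlt.le) (by
      intro k hk; rw [hSj] at hk; simp only [mem_insert, mem_singleton] at hk
      rcases hk with rfl | rfl
      · exact hlt.le
      · exact le_rfl)
    rw [e]
    refine ⟨hji, hX, rfl, ?_⟩
    rw [mkH_b, mkH_i, if_neg (not_lt.mpr hlt.le)]
  · have e := nx_next (h := h) hj hlt (by
      intro k hk hik; rw [hSj] at hk; simp only [mem_insert, mem_singleton] at hk
      rcases hk with rfl | rfl
      · exact absurd hik (lt_irrefl _)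
      · exact le_rfl)
    rw [e]
    refine ⟨hji, hX, rfl, ?_⟩
    rw [mkH_b, mkH_i, if_pos hlt]

/-- the core: two partners on the same side are impossible -/
theorem core (c : Bool) {i j j' : Fin n} {x x' : ℝ} (hj : j ≠ i) (hj' : j' ≠ i)
    (hX : a.X i j = x) (hX' : a.X i j' = x') (hlt : x' < x)
    (d d' : Bool) (hd : d = (if (i < j) then c else !c)) (hd' : d' = (if (i < j') then !c else c))
    (hr : ∀ z ∈ vals a j, ¬ dl d x z) (hr' : ∀ z ∈ vals a j', ¬ dl d' x' z) : False := by
  have hjj : j ≠ j' := by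
    rintro rfl
    rw [hX] at hX'
    exact absurd hX' hlt.ne'
  have f1 := hr (a.X j j') (X_mem_vals a hjj.symm)
  have f2 := hr' (a.X j' j) (X_mem_vals a hjj)
  have s1 := a.sym j j'
  have s2 := a.sym i j
  have s3 := a.sym i j'
  rcases lt_or_gt_of_ne hj with h1 | h1 <;> rcases lt_or_gt_of_ne hj' with h2 | h2 <;>
    rcases lt_or_gt_of_ne hjj with h3 | h3
  all_goals
    first
    | rw [if_pos h1] at hd
    | rw [if_neg (not_lt.mpr h1.le)] at hd
    first
    | rw [if_pos h2] at hd'
    | rw [if_neg (not_lt.mpr h2.le)] at hd'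
    rw [hd] at f1
    rw [hd'] at f2
    clear hr hr' hd hd'
  -- `j < i`, `j' < i`, `j < j'`
  · have b := a.bt j j' i h3 h2
    cases c <;> simp only [Bool.not_true, Bool.not_false, dl_true, dl_false, not_lt] at f1 f2 <;>
      rcases b with b | b | b <;> linarith [b.1, b.2]
  · have b := a.bt j' j i h3 h1
    cases c <;> simp only [Bool.not_true, Bool.not_false, dl_true, dl_false, not_lt] at f1 f2 <;>
      rcases b with b | b | b <;> linarith [b.1, b.2]
  · have b := a.bt j i j' h1 h2
    cases c <;> simp only [Bool.not_true, Bool.not_false, dl_true, dl_false, not_lt] at f1 f2 <;>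
      rcases b with b | b | b <;> linarith [b.1, b.2]
  · exact absurd (h1.trans h2) (not_lt.mpr h3.le)
  · exact absurd (h2.trans h1) (not_lt.mpr h3.le)
  · have b := a.bt j' i j h2 h1
    cases c <;> simp only [Bool.not_true, Bool.not_false, dl_true, dl_false, not_lt] at f1 f2 <;>
      rcases b with b | b | b <;> linarith [b.1, b.2]
  · have b := a.bt i j j' h1 h3
    cases c <;> simp only [Bool.not_true, Bool.not_false, dl_true, dl_false, not_lt] at f1 f2 <;>
      rcases b with b | b | b <;> linarith [b.1, b.2]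
  · have b := a.bt i j' j h2 h3
    cases c <;> simp only [Bool.not_true, Bool.not_false, dl_true, dl_false, not_lt] at f1 f2 <;>
      rcases b with b | b | b <;> linarith [b.1, b.2]

/-- the abscissae of the two ends differ -/
theorem ends_lt {h h' : HE a} (hn : 4 ≤ n) (hi : h.i = h'.i) (hb : h.b = true) (hb' : h'.b = false)
    (hr : h.rv = h) (hr' : h'.rv = h') (hc : h.S.card = 2) : h'.x < h.x := by
  classical
  have r1 := ray_of_rv hr
  have r2 := ray_of_rv hr'
  rw [hb] at r1
  rw [hb', ← hi] at r2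
  have h1 : h'.x ≤ h.x := by
    have := r2 h.x h.hx
    rwa [dl_false, not_lt] at this
  rcases h1.lt_or_eq with h2 | h2
  · exact h2
  · exfalso
    have hall : h.S = univ := by
      ext l
      simp only [mem_univ, iff_true]
      unfold HE.S
      rw [mem_Ls]
      by_cases hl : l = h.i
      · exact Or.inl hl
      · right
        have h3 := r1 _ (X_mem_vals a hl)
        have h4 := r2 _ (X_mem_vals a hl)
        rw [dl_true, not_lt] at h3
        rw [dl_false, not_lt] at h4
        linarith
    rw [hall, Finset.card_univ, Fintype.card_fin] at hc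
    omega

theorem wedge_aux {h h' s s' : HE a} (hn : 4 ≤ n) (he : Even n) (hi : h.i = h'.i)
    (hb : h.b = true) (hb' : h'.b = false)
    (hr : h.rv = h) (hr' : h'.rv = h') (hc : h.S.card = 2) (hc' : h'.S.card = 2)
    (hs : s = h ∨ s.nx = h) (hs' : s' = h' ∨ s'.nx = h') (q1 : s.rv = s) (q2 : s.nx.rv = s.nx)
    (q1' : s'.rv = s') (q2' : s'.nx.rv = s'.nx) : s.col ≠ s'.col := by
  have hlt := ends_lt hn hi hb hb' hr hr' hc
  have c1 := col_ray hr
  have c2 := col_ray hr'
  rw [hb] at c1
  rw [hb', ← hi] at c2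
  have hcol : h.col = h'.col := by
    rw [c1, c2]
    simp only [if_true, Bool.false_eq_true, if_false]
    have hin := h.i.2
    obtain ⟨m, hm⟩ := he
    congr 1
    apply propext
    omega
  rcases hs with hs | hs <;> rcases hs' with hs' | hs'
  · -- both sectors follow
    exfalso
    subst hs
    subst hs'
    obtain ⟨a1, a2, a3, a4⟩ := nx_two hc
    obtain ⟨b1, b2, b3, b4⟩ := nx_two hc'
    have r1 := ray_of_rv q2
    have r2 := ray_of_rv q2'
    rw [a3] at r1
    rw [b3] at r2
    rw [hb] at a4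
    rw [hb', ← hi] at b4
    rw [← hi] at b1 b2
    exact core true a1 b1 a2 b2 hlt _ _ (by rw [a4]) (by rw [b4]; rfl) r1 r2
  · subst hs
    rw [← hs', col_nx] at hcol
    rw [hcol]
    cases s'.col <;> simp
  · subst hs'
    rw [← hs, col_nx] at hcol
    rw [← hcol]
    cases s.col <;> simp
  · exfalso
    have hcs : s.S.card = 2 := by rw [← s.nx_S, hs, hc]
    have hcs' : s'.S.card = 2 := by rw [← s'.nx_S, hs', hc']
    obtain ⟨a1, a2, a3, a4⟩ := nx_two hcs
    obtain ⟨b1, b2, b3, b4⟩ := nx_two hcs'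
    rw [hs] at a1 a2 a3 a4
    rw [hs'] at b1 b2 b3 b4
    have r1 := ray_of_rv q1
    have r2 := ray_of_rv q1'
    rw [← a3] at r1
    rw [← b3] at r2
    rw [hb] at a4
    rw [hb', ← hi] at b4
    rw [← hi] at b1 b2
    rw [← a3, a.sym] at a2
    rw [← b3, a.sym] at b2
    refine core false a1.symm b1.symm a2 b2 hlt _ _ ?_ ?_ r1 r2
    · rcases lt_or_gt_of_ne a1 with h1 | h1
      · rw [if_neg (not_lt.mpr h1.le)] at a4
        rw [if_pos h1]
        cases hq : s.b
        · rfl
        · rw [hq] at a4; exact absurd a4 (by simp)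
      · rw [if_pos h1] at a4
        rw [if_neg (not_lt.mpr h1.le), ← a4]
        rfl
    · rcases lt_or_gt_of_ne b1 with h1 | h1
      · rw [if_neg (not_lt.mpr h1.le)] at b4
        rw [if_pos h1]
        cases hq : s'.b
        · rw [hq] at b4; exact absurd b4 (by simp)
        · rfl
      · rw [if_pos h1] at b4
        rw [if_neg (not_lt.mpr h1.le), ← b4]

theorem tWedge : StWedge := by
  intro n a h h' s s' hn he hi hne hr hr' hc hc' hs hs' q1 q2 q1' q2'
  have hbb : h.b ≠ h'.b := by
    intro hb
    obtain ⟨k, -, hk⟩ := exists_ray (a := a) (by omega : 2 ≤ n) h.i h.b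
    exact hne ((hk h ⟨rfl, rfl, hr⟩).trans (hk h' ⟨hi.symm, hb.symm, hr'⟩).symm)
  cases hb : h.b
  · have hb' : h'.b = true := by
      cases hb' : h'.b
      · rw [hb, hb'] at hbb; exact absurd rfl hbb
      · rfl
    exact (wedge_aux hn he hi.symm hb' hb hr' hr hc' hc hs' hs q1' q2' q1 q2).symm
  · have hb' : h'.b = false := by
      cases hb' : h'.b
      · rfl
      · rw [hb, hb'] at hbb; exact absurd rfl hbb
    exact wedge_aux hn he hi hb hb' hr hr' hc hc' hs hs' q1 q2 q1' q2'

end Pool.Agent.Helper31.KBC
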