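import Pool.Agent.Helper77.KBL.Basic

/-!
# Kobon triangles: strips (claims)

A state is a pair `(τ, o)`: the exit half-edge `τ` of a triangle that lies on the side `!o` of `τ`.
The strip goes on through `τ` iff the sector on the side `o` of `τ` is a triangle and `m τ ≤ 3`;
the next state is `(r (!o) (rv τ), !o)`.
-/

namespace Pool.Agent.Helper31.KBC

open Pool.Agent.Helper23.KB Pool.Agent.Helper77.KBL Finset

variable {n : ℕ} (K : KM n)

/-- the triangle left behind -/
def val (s : K.H × Bool) : Prop := tr K (!s.2) s.1 = true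

/-- the strip goes on -/
def cont (s : K.H × Bool) : Prop := tr K s.2 s.1 = true ∧ K.m s.1 ≤ 3

/-- the next state -/
def step (s : K.H × Bool) : K.H × Bool := (r K (!s.2) (K.rv s.1), !s.2)

/-- the previous state -/
def prev (s : K.H × Bool) : K.H × Bool := (K.rv (r K (!s.2) s.1), !s.2)

/-- starts: states with a simple pivot -/
def start (s : K.H × Bool) : Prop := val K s ∧ K.m s.1 = 2

/-- terminals: single half-edges, and the slots at vertices of multiplicity at least four -/
def term (s : K.H × Bool) : Prop :=
  val K s ∧ (tr K s.2 s.1 = false ∨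
    (4 ≤ K.m s.1 ∧ tr K s.2 s.1 = true ∧ tr K (!s.2) (r K (!s.2) s.1) = true))

/-- `t` is reached from `s` in `k` steps -/
def reach (s : K.H × Bool) (k : ℕ) (t : K.H × Bool) : Prop :=
  (∀ j < k, cont K ((step K)^[j] s)) ∧ (step K)^[k] s = t

/-- `t` is claimed by a start -/
def Claimed (t : K.H × Bool) : Prop := ∃ s k, start K s ∧ reach K s k t

instance : DecidablePred (val K) := fun _ => by unfold val; infer_instance
instance : DecidablePred (cont K) := fun _ => by unfold cont; infer_instance
instance : DecidablePred (start K) := fun _ => by unfold start; infer_instance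
instance : DecidablePred (term K) := fun _ => by unfold term; infer_instance

theorem prev_step (s : K.H × Bool) : prev K (step K s) = s := by
  rcases s with ⟨τ, o⟩
  simp only [step, prev, Bool.not_not]
  rw [r_r', K.rv_rv]

theorem step_prev (s : K.H × Bool) : step K (prev K s) = s := by
  rcases s with ⟨τ, o⟩
  simp only [step, prev, Bool.not_not, K.rv_rv]
  rw [r_r']

theorem step_inj : Function.Injective (step K) :=
  Function.LeftInverse.injective (prev_step K)

theorem val_step {s : K.H × Bool} (h : cont K s) : val K (step K s) := by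
  rcases s with ⟨τ, o⟩
  unfold val step
  unfold cont at h
  simp only [Bool.not_not] at h ⊢
  have h1 : tr K o (r K (!o) (K.rv τ)) = tr K (!o) (K.rv τ) := by
    have := tr_r_eq K (!o) (K.rv τ)
    rwa [Bool.not_not] at this
  rw [h1, tr_rv_eq]
  exact h.1

/-- the other edge of the sector of a reached state is double -/
theorem second_step {s : K.H × Bool} (h : val K s) :
    tr K (!(step K s).2) (r K (!(step K s).2) (step K s).1) = true := by
  rcases s with ⟨τ, o⟩
  unfold val at h
  simp only [step, Bool.not_not] at h ⊢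
  rw [r_r']
  have := tr_rv_eq K (o := !o) (h := τ)
  rw [Bool.not_not] at this
  rw [this]
  exact h

/-! ### walking along a line -/

/-- the next half-edge on the same line in the same direction -/
def fw (h : K.H) : K.H := op K (K.rv h)

theorem ln_fw (h : K.H) : K.ln (fw K h) = K.ln h := by
  unfold fw; rw [ln_op, K.ln_rv]

theorem ln_fw_iter (k : ℕ) (h : K.H) : K.ln ((fw K)^[k] h) = K.ln h := by
  induction k with
  | zero => rfl
  | succ k ih => rw [Function.iterate_succ_apply', ln_fw, ih]

theorem dr_fw {h : K.H} (hr : K.rv h ≠ h) : K.dr (fw K h) = K.dr h := by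
  unfold fw; rw [dr_op, K.dr_rv h hr, Bool.not_not]

/-- the sign of a direction -/
def sg (d : Bool) : ℤ := if d then 1 else -1

theorem sg_ne (d : Bool) : sg d ≠ 0 := by cases d <;> simp [sg]

theorem ps_fw {h : K.H} (hr : K.rv h ≠ h) : K.ps (fw K h) = K.ps h + sg (K.dr h) := by
  have h1 : K.ps (fw K h) = K.ps (K.rv h) :=
    K.ps_vt _ _ (by rw [ln_fw, K.ln_rv]) (by unfold fw; rw [vt_op])
  rw [h1, K.ps_rv h hr]
  cases K.dr h <;> simp [sg]

theorem ps_fw_iter (k : ℕ) {h : K.H} (hr : ∀ j < k, K.rv ((fw K)^[j] h) ≠ (fw K)^[j] h) :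
    K.ps ((fw K)^[k] h) = K.ps h + k * sg (K.dr h) ∧ K.dr ((fw K)^[k] h) = K.dr h := by
  induction k with
  | zero => simp
  | succ k ih =>
    obtain ⟨h1, h2⟩ := ih (fun j hj => hr j (by omega))
    rw [Function.iterate_succ_apply', ps_fw K (hr k (by omega)), dr_fw K (hr k (by omega)), h1, h2]
    refine ⟨?_, rfl⟩
    push_cast
    ring

/-- walking back -/
theorem fw_rv_fw (h : K.H) : fw K (K.rv (fw K h)) = K.rv h := by
  unfold fw
  rw [K.rv_rv, op_op]

theorem op3 {o : Bool} {h : K.H} (hm : K.m h = 3) : op K h = r K o (r K o (r K o h)) := by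
  cases o
  · have h2 : K.nx (K.nx (K.nx (op K h))) = h := by
      have h1 := op_op K h
      have h3 : K.m (op K h) = 3 := by rw [m_op, hm]
      have h4 : op K (op K h) = K.nx (K.nx (K.nx (op K h))) := by
        conv_lhs => unfold op
        rw [show K.m (K.nx^[K.m h] h) = 3 from h3]
        rfl
      rw [← h4, h1]
    simp only [r_false]
    conv_rhs => rw [← h2]
    simp
  · unfold op
    rw [hm]
    rfl

theorem op2 {o : Bool} {h : K.H} (hm : K.m h = 2) : op K h = r K o (r K o h) := by
  cases o
  · have h2 : K.nx (K.nx (op K h)) = h := by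
      have h1 := op_op K h
      have h3 : K.m (op K h) = 2 := by rw [m_op, hm]
      have h4 : op K (op K h) = K.nx (K.nx (op K h)) := by
        conv_lhs => unfold op
        rw [show K.m (K.nx^[K.m h] h) = 2 from h3]
        rfl
      rw [← h4, h1]
    simp only [r_false]
    conv_rhs => rw [← h2]
    simp
  · unfold op
    rw [hm]
    rfl

end Pool.Agent.Helper31.KBC
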