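import Pool.Agent.Helper31.KBC.Basic

/-!
# Kobon triangles: the two rows of a strip
-/

namespace Pool.Agent.Helper31.KBC

open Pool.Agent.Helper23.KB Pool.Agent.Helper77.KBL Finset

variable {n : ℕ} (K : KM n)

/-- the half-edge at the apex of a start that points to the pivot -/
def a0 (s : K.H × Bool) : K.H := K.rv (r K (!s.2) s.1)

/-- the half-edge at the apex of a start that points to the other end of the exit edge -/
def a1 (s : K.H × Bool) : K.H := K.rv (r K s.2 (K.rv s.1))

/-- the half-edge of the third side of the triangle, at the far end of the exit edge -/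
def gam (s : K.H × Bool) : K.H := r K s.2 (K.rv s.1)

/-- the half-edge of the row of the pivot that points back -/
def bet (s : K.H × Bool) : K.H := r K (!s.2) (r K (!s.2) s.1)

theorem a1_a0 {s : K.H × Bool} (h : val K s) : r K s.2 (a1 K s) = a0 K s := by
  have := tr_apex K h
  rw [Bool.not_not] at this
  exact this

theorem vt_a0 {s : K.H × Bool} (h : val K s) : K.vt (a0 K s) = K.vt (a1 K s) := by
  rw [← a1_a0 K h, vt_r]

theorem ln_r_ne (o : Bool) (h : K.H) : K.ln (r K o h) ≠ K.ln h := by
  cases o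
  · intro e
    have := K.ln_ne (K.nx.symm h) 1 (by omega) (by have := K.two_le (K.nx.symm h); omega)
    simp at this
    exact this e.symm
  · have := K.ln_ne h 1 (by omega) (by have := K.two_le h; omega)
    simpa using this

theorem ln_a0 {s : K.H × Bool} (h : val K s) : K.ln (a0 K s) ≠ K.ln (a1 K s) := by
  rw [← a1_a0 K h]
  exact ln_r_ne K _ _

theorem bet_step (s : K.H × Bool) : bet K (step K s) = gam K s := by
  rcases s with ⟨τ, o⟩
  simp only [bet, step, gam, Bool.not_not]
  rw [r_r']

theorem gam_step {s : K.H × Bool} (h : cont K s) : gam K (step K s) = K.rv (r K s.2 s.1) := by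
  rcases s with ⟨τ, o⟩
  exact tr_apex K h.1

/-- the row half-edges -/
theorem gam_step_start {s : K.H × Bool} (hs : start K s) (h : cont K s) :
    gam K (step K s) = K.rv (fw K (a0 K s)) := by
  rw [gam_step K h]
  congr 1
  unfold fw a0
  rw [K.rv_rv, op2 K (o := s.2) (by rw [m_r]; exact hs.2)]
  congr 1
  rw [r_r']

theorem m_step_three {s : K.H × Bool} (h : cont K s) (hne : K.m s.1 ≠ 2) : K.m s.1 = 3 := by
  have := K.two_le s.1
  have := h.2
  omega

theorem gam_step_three {s : K.H × Bool} (h : cont K s) (hm : K.m s.1 = 3) :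
    gam K (step K s) = K.rv (op K (bet K s)) := by
  rw [gam_step K h]
  congr 1
  rw [op3 K (o := s.2) (by unfold bet; rw [m_r, m_r]; exact hm)]
  unfold bet
  rw [r_r', r_r']

/-- `gam` of the states of a strip, in terms of the two rows -/
theorem gam_iter {s : K.H × Bool} (hs : start K s) (k : ℕ)
    (hc : ∀ j < k, cont K ((step K)^[j] s))
    (hm : ∀ j < k, 0 < j → K.m ((step K)^[j] s).1 = 3) :
    (gam K ((step K)^[k] s) =
      if k % 2 = 0 then K.rv ((fw K)^[k / 2] (a1 K s)) else K.rv ((fw K)^[k / 2 + 1] (a0 K s))) := by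
  induction k using Nat.strong_induction_on with
  | _ k ih =>
    match k, ih, hc, hm with
    | 0, _, _, _ => simp [gam, a1, K.rv_rv]
    | 1, _, hc, _ =>
      have := gam_step_start K hs (hc 0 (by omega))
      simpa using this
    | k + 2, ih, hc, hm =>
      have h1 := ih k (by omega) (fun j hj => hc j (by omega)) (fun j hj h0 => hm j (by omega) h0)
      rw [Function.iterate_succ_apply', gam_step_three K (hc (k + 1) (by omega))
        (hm (k + 1) (by omega) (by omega))]
      rw [Function.iterate_succ_apply', bet_step, h1]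
      have e1 : (k + 2) % 2 = k % 2 := by omega
      have e2 : (k + 2) / 2 = k / 2 + 1 := by omega
      rw [e1, e2]
      split
      · rw [Function.iterate_succ_apply']
        rfl
      · rw [Function.iterate_succ_apply' (fw K) (k / 2 + 1)]
        rfl

/-- the side alternates -/
theorem snd_iter (s : K.H × Bool) (k : ℕ) :
    ((step K)^[k] s).2 = if k % 2 = 0 then s.2 else !s.2 := by
  induction k with
  | zero => simp
  | succ k ih =>
    rw [Function.iterate_succ_apply']
    show (!((step K)^[k] s).2) = _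
    rw [ih]
    rcases Nat.mod_two_eq_zero_or_one k with h | h
    · rw [if_pos h, if_neg (by omega)]
    · rw [if_neg (by omega), if_pos (by omega), Bool.not_not]

theorem val_iter {s : K.H × Bool} (hs : val K s) (k : ℕ)
    (hc : ∀ j < k, cont K ((step K)^[j] s)) : val K ((step K)^[k] s) := by
  cases k with
  | zero => exact hs
  | succ k =>
    rw [Function.iterate_succ_apply']
    exact val_step K (hc k (by omega))

theorem tr_gam {s : K.H × Bool} (h : val K s) : tr K (!s.2) (gam K s) = true := by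
  unfold gam
  rw [tr_r_eq]
  have := tr_rv_eq K (o := !s.2) (h := s.1)
  rw [Bool.not_not] at this
  rw [this]
  exact h

theorem tr_a0 {s : K.H × Bool} (h : val K s) : tr K (!s.2) (a0 K s) = true := by
  unfold a0
  rw [tr_rv_eq]
  have := tr_r_eq K (!s.2) s.1
  rw [Bool.not_not] at this
  rw [this]
  exact h

theorem tr_a1 {s : K.H × Bool} (h : val K s) : tr K s.2 (a1 K s) = true := by
  have h1 := tr_gam K h
  have h2 := tr_rv K h1
  rw [Bool.not_not] at h2
  exact h2

/-- the edges of the row through the pivot `a0` -/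
theorem tr_row0 {s : K.H × Bool} (hs : start K s) (k : ℕ)
    (hc : ∀ j < k, cont K ((step K)^[j] s))
    (hm : ∀ j < k, 0 < j → K.m ((step K)^[j] s).1 = 3) (i : ℕ) (hi : 2 * i ≤ k + 1) :
    tr K (!s.2) ((fw K)^[i] (a0 K s)) = true := by
  cases i with
  | zero => exact tr_a0 K hs.1
  | succ i =>
    have h1 := gam_iter K hs (2 * i + 1) (fun j hj => hc j (by omega))
      (fun j hj h0 => hm j (by omega) h0)
    rw [if_neg (by omega), show (2 * i + 1) / 2 = i by omega] at h1
    have h2 := tr_gam K (val_iter K hs.1 (2 * i + 1) (fun j hj => hc j (by omega)))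
    have h3 := snd_iter K s (2 * i + 1)
    rw [if_neg (by omega)] at h3
    rw [h3, Bool.not_not, h1] at h2
    have h4 := tr_rv K h2
    rw [K.rv_rv] at h4
    exact h4

/-- the edges of the other row -/
theorem tr_row1 {s : K.H × Bool} (hs : start K s) (k : ℕ)
    (hc : ∀ j < k, cont K ((step K)^[j] s))
    (hm : ∀ j < k, 0 < j → K.m ((step K)^[j] s).1 = 3) (i : ℕ) (hi : 2 * i ≤ k) :
    tr K s.2 ((fw K)^[i] (a1 K s)) = true := by
  have h1 := gam_iter K hs (2 * i) (fun j hj => hc j (by omega))
    (fun j hj h0 => hm j (by omega) h0)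
  rw [if_pos (by omega), show (2 * i) / 2 = i by omega] at h1
  have h2 := tr_gam K (val_iter K hs.1 (2 * i) (fun j hj => hc j (by omega)))
  have h3 := snd_iter K s (2 * i)
  rw [if_pos (by omega)] at h3
  rw [h3, h1] at h2
  have h4 := tr_rv K h2
  rw [K.rv_rv, Bool.not_not] at h4
  exact h4

/-- **the strip lemma**: a strip that starts at a simple pivot never reaches a simple pivot -/
theorem no_simple {s : K.H × Bool} (hs : start K s) (k : ℕ) (hk : 0 < k)
    (hc : ∀ j < k, cont K ((step K)^[j] s)) : K.m ((step K)^[k] s).1 ≠ 2 := by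
  intro h2
  -- take the first simple pivot
  obtain ⟨k, ⟨hk, hc, h2⟩, hmin⟩ : ∃ k, (0 < k ∧ (∀ j < k, cont K ((step K)^[j] s)) ∧
      K.m ((step K)^[k] s).1 = 2) ∧ ∀ j < k, ¬ (0 < j ∧ (∀ i < j, cont K ((step K)^[i] s)) ∧
      K.m ((step K)^[j] s).1 = 2) := by
    classical
    have hex : ∃ k, 0 < k ∧ (∀ j < k, cont K ((step K)^[j] s)) ∧
      K.m ((step K)^[k] s).1 = 2 := ⟨k, hk, hc, h2⟩
    exact ⟨Nat.find hex, Nat.find_spec hex, fun j hj => Nat.find_min hex hj⟩
  have hm : ∀ j < k, 0 < j → K.m ((step K)^[j] s).1 = 3 := by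
    intro j hj h0
    refine m_step_three K (hc j hj) (fun h => hmin j hj ⟨h0, fun i hi => hc i (by omega), h⟩)
  set t := (step K)^[k] s with ht
  have hvt : val K t := val_iter K hs.1 k hc
  -- the exit half-edge of `t` continues the row of the pivot
  have e1 : t.1 = op K (bet K t) := by
    rw [op2 K (o := t.2) (by unfold bet; rw [m_r, m_r]; exact h2)]
    unfold bet
    rw [r_r', r_r']
  obtain ⟨k', rfl⟩ : ∃ k', k = k' + 1 := ⟨k - 1, by omega⟩
  have e2 : bet K t = gam K ((step K)^[k'] s) := by
    rw [ht, Function.iterate_succ_apply', bet_step]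
  have g1 := gam_iter K hs k' (fun j hj => hc j (by omega)) (fun j hj h0 => hm j (by omega) h0)
  have g2 := gam_iter K hs (k' + 1) hc hm
  rw [← ht] at g2
  -- the common vertex
  have hv : K.vt (K.rv t.1) = K.vt (gam K t) := by
    unfold gam; rw [vt_r]
  have hnr : K.rv t.1 ≠ t.1 := tr_nr K hvt
  rcases Nat.mod_two_eq_zero_or_one k' with hp | hp
  · -- `k'` even: the pivot is on the row of `a1`
    rw [if_pos hp] at g1
    rw [if_neg (by omega), show (k' + 1) / 2 = k' / 2 by omega] at g2
    have e3 : t.1 = (fw K)^[k' / 2 + 1] (a1 K s) := by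
      rw [e1, e2, g1, Function.iterate_succ_apply']
      rfl
    have hr : ∀ j < k' / 2 + 2, K.rv ((fw K)^[j] (a1 K s)) ≠ (fw K)^[j] (a1 K s) := by
      intro j hj
      rcases Nat.lt_or_ge j (k' / 2 + 1) with h | h
      · exact tr_nr K (tr_row1 K hs (k' + 1) hc hm j (by omega))
      · obtain rfl : j = k' / 2 + 1 := by omega
        rw [← e3]
        exact hnr
    obtain ⟨q1, -⟩ := ps_fw_iter K (k' / 2 + 1) (h := a1 K s) (fun j hj => hr j (by omega))
    have q2 := K.ps_rv _ (hr (k' / 2 + 1) (by omega))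
    obtain ⟨-, q3⟩ := ps_fw_iter K (k' / 2 + 1) (h := a1 K s) (fun j hj => hr j (by omega))
    have m1 := K.meet (a0 K s) (a1 K s) (gam K t) (K.rv t.1) (vt_a0 K hs.1) hv.symm
      (by rw [g2, K.ln_rv, ln_fw_iter]) (by rw [e3, K.ln_rv, ln_fw_iter]) (ln_a0 K hs.1)
    have m2 : K.vt (K.rv t.1) = K.vt (a1 K s) := by rw [hv, ← m1, vt_a0 K hs.1]
    have m3 := K.ps_vt _ _ (by rw [e3, K.ln_rv, ln_fw_iter]) m2
    rw [e3, q2, q3, q1] at m3
    cases hd : K.dr (a1 K s)
    · rw [hd] at m3; simp [sg] at m3; omega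
    · rw [hd] at m3; simp [sg] at m3; omega
  · rw [if_neg (by omega)] at g1
    rw [if_pos (by omega), show (k' + 1) / 2 = k' / 2 + 1 by omega] at g2
    have e3 : t.1 = (fw K)^[k' / 2 + 2] (a0 K s) := by
      rw [e1, e2, g1, Function.iterate_succ_apply' (fw K) (k' / 2 + 1)]
      rfl
    have hr : ∀ j < k' / 2 + 3, K.rv ((fw K)^[j] (a0 K s)) ≠ (fw K)^[j] (a0 K s) := by
      intro j hj
      rcases Nat.lt_or_ge j (k' / 2 + 2) with h | h
      · exact tr_nr K (tr_row0 K hs (k' + 1) hc hm j (by omega))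
      · obtain rfl : j = k' / 2 + 2 := by omega
        rw [← e3]
        exact hnr
    obtain ⟨q1, q3⟩ := ps_fw_iter K (k' / 2 + 2) (h := a0 K s) (fun j hj => hr j (by omega))
    have q2 := K.ps_rv _ (hr (k' / 2 + 2) (by omega))
    have m1 := K.meet (a1 K s) (a0 K s) (gam K t) (K.rv t.1) (vt_a0 K hs.1).symm hv.symm
      (by rw [g2, K.ln_rv, ln_fw_iter]) (by rw [e3, K.ln_rv, ln_fw_iter]) (ln_a0 K hs.1).symm
    have m2 : K.vt (K.rv t.1) = K.vt (a0 K s) := by rw [hv, ← m1, vt_a0 K hs.1]
    have m3 := K.ps_vt _ _ (by rw [e3, K.ln_rv, ln_fw_iter]) m2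
    rw [e3, q2, q3, q1] at m3
    cases hd : K.dr (a0 K s)
    · rw [hd] at m3; simp [sg] at m3; omega
    · rw [hd] at m3; simp [sg] at m3; omega

/-- all inner pivots of a strip from a start are triple points -/
theorem m_three {s : K.H × Bool} (hs : start K s) (k : ℕ)
    (hc : ∀ j < k, cont K ((step K)^[j] s)) :
    ∀ j < k, 0 < j → K.m ((step K)^[j] s).1 = 3 := by
  intro j hj h0
  exact m_step_three K (hc j hj) (no_simple K hs j h0 (fun i hi => hc i (by omega)))

end Pool.Agent.Helper31.KBC
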