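import Pool.Agent.Helper31.KBC.Chain

/-!
# Kobon triangles: starts inject into terminals
-/

namespace Pool.Agent.Helper31.KBC

open Pool.Agent.Helper23.KB Pool.Agent.Helper77.KBL Finset

variable {n : ℕ} (K : KM n)

theorem step_iter_inj (k : ℕ) : Function.Injective ((step K)^[k]) :=
  (step_inj K).iterate k

/-- a strip from a start stops -/
theorem stops {s : K.H × Bool} (hs : start K s) : ∃ k, ¬ cont K ((step K)^[k] s) := by
  by_contra hcon
  push Not at hcon
  obtain ⟨p, hp, hper⟩ : ∃ p, 0 < p ∧ (step K)^[p] s = s := by
    have := Function.Injective.mem_periodicPts (step_inj K) s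
    obtain ⟨p, hp, h⟩ := this
    exact ⟨p, hp, h⟩
  have := no_simple K hs p hp (fun j _ => hcon j)
  rw [hper] at this
  exact this hs.2

/-- a reached state where the strip stops is a terminal -/
theorem term_of_stop {s : K.H × Bool} (hs : start K s) {k : ℕ}
    (hc : ∀ j < k, cont K ((step K)^[j] s)) (hk : ¬ cont K ((step K)^[k] s)) :
    term K ((step K)^[k] s) := by
  have hv := val_iter K hs.1 k hc
  refine ⟨hv, ?_⟩
  cases ht : tr K ((step K)^[k] s).2 ((step K)^[k] s).1
  · left; rfl
  · right
    have h4 : 4 ≤ K.m ((step K)^[k] s).1 := by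
      by_contra h
      exact hk ⟨ht, by omega⟩
    refine ⟨h4, rfl, ?_⟩
    cases k with
    | zero =>
      have := hs.2
      simp only [Function.iterate_zero, id_eq] at h4
      omega
    | succ k =>
      rw [Function.iterate_succ_apply']
      exact second_step K (val_iter K hs.1 k (fun j hj => hc j (by omega)))

theorem not_cont_of_term {t : K.H × Bool} (ht : term K t) : ¬ cont K t := by
  rintro ⟨h1, h2⟩
  rcases ht.2 with h | ⟨h, -⟩
  · rw [h1] at h; exact absurd h (by simp)
  · omega

/-- every start claims a terminal -/
theorem exists_term {s : K.H × Bool} (hs : start K s) : ∃ k t, term K t ∧ reach K s k t := by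
  classical
  have hex := stops K hs
  refine ⟨Nat.find hex, _, term_of_stop K hs (fun j hj => ?_) (Nat.find_spec hex),
    fun j hj => ?_, rfl⟩
  · exact not_not.1 (Nat.find_min hex hj)
  · exact not_not.1 (Nat.find_min hex hj)

/-- the terminal of a start is unique -/
theorem term_unique {s : K.H × Bool} {k k' : ℕ} {t t' : K.H × Bool} (ht : term K t)
    (ht' : term K t') (h : reach K s k t) (h' : reach K s k' t') : k = k' ∧ t = t' := by
  have hk : k = k' := by
    rcases Nat.lt_trichotomy k k' with hlt | he | hlt
    · have := h'.1 k hlt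
      rw [h.2] at this
      exact absurd this (not_cont_of_term K ht)
    · exact he
    · have := h.1 k' hlt
      rw [h'.2] at this
      exact absurd this (not_cont_of_term K ht')
  exact ⟨hk, by rw [← h.2, ← h'.2, hk]⟩

/-- different starts never meet -/
theorem start_unique {s s' : K.H × Bool} {k k' : ℕ} {t : K.H × Bool} (hs : start K s)
    (hs' : start K s') (h : reach K s k t) (h' : reach K s' k' t) : k = k' ∧ s = s' := by
  have key : ∀ {s s' : K.H × Bool} {k k' : ℕ}, start K s → start K s' → reach K s k t →
      reach K s' k' t → ¬ k < k' := by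
    intro s s' k k' hs hs' h h' hlt
    have e : (step K)^[k] s = (step K)^[k] ((step K)^[k' - k] s') := by
      rw [← Function.iterate_add_apply, h.2, show k + (k' - k) = k' by omega, h'.2]
    have e2 := step_iter_inj K k e
    have := no_simple K hs' (k' - k) (by omega) (fun j hj => h'.1 j (by omega))
    rw [← e2] at this
    exact this hs.2
  have hk : k = k' := by
    have h1 := key hs hs' h h'
    have h2 := key hs' hs h' h
    omega
  subst hk
  exact ⟨rfl, step_iter_inj K k (by rw [h.2, h'.2])⟩

open Classical in
/-- **claims**: terminals = starts + unclaimed terminals -/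
theorem count : (univ.filter (fun t => term K t)).card =
    (univ.filter (fun s => start K s)).card +
      (univ.filter (fun t => term K t ∧ ¬ Claimed K t)).card := by
  have h1 : (univ.filter (fun t => term K t)).card =
      (univ.filter (fun t => term K t ∧ Claimed K t)).card +
        (univ.filter (fun t => term K t ∧ ¬ Claimed K t)).card := by
    rw [← Finset.card_filter_add_card_filter_not (s := univ.filter (fun t => term K t))
      (p := fun t => Claimed K t), Finset.filter_filter, Finset.filter_filter]
  rw [h1]
  congr 1
  symm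
  refine Finset.card_bij (fun s hs => ((step K)^[Nat.find (stops K (Finset.mem_filter.1 hs).2)] s))
    ?_ ?_ ?_
  · intro s hs
    have hs' := (Finset.mem_filter.1 hs).2
    have hc : ∀ j < Nat.find (stops K hs'), cont K ((step K)^[j] s) :=
      fun j hj => not_not.1 (Nat.find_min (stops K hs') hj)
    refine Finset.mem_filter.2 ⟨Finset.mem_univ _, term_of_stop K hs' hc
      (Nat.find_spec (stops K hs')), ⟨s, _, hs', hc, rfl⟩⟩
  · intro s hs s' hs' he
    have h0 := (Finset.mem_filter.1 hs).2
    have h0' := (Finset.mem_filter.1 hs').2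
    exact (start_unique K h0 h0'
      ⟨fun j hj => not_not.1 (Nat.find_min (stops K h0) hj), rfl⟩
      ⟨fun j hj => not_not.1 (Nat.find_min (stops K h0') hj), he.symm⟩).2
  · intro t ht
    obtain ⟨htt, s, k, hs, hc, he⟩ := (Finset.mem_filter.1 ht).2
    refine ⟨s, Finset.mem_filter.2 ⟨Finset.mem_univ _, hs⟩, ?_⟩
    have hc' : ∀ j < Nat.find (stops K hs), cont K ((step K)^[j] s) :=
      fun j hj => not_not.1 (Nat.find_min (stops K hs) hj)
    exact (term_unique K (term_of_stop K hs hc' (Nat.find_spec (stops K hs))) htt
      ⟨hc', rfl⟩ ⟨hc, he⟩).2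

/-! ### when is a state claimed -/

/-- a claimed state is a start, or its previous state is claimed and goes on -/
theorem claimed_prev {t : K.H × Bool} (h : Claimed K t) :
    start K t ∨ (cont K (prev K t) ∧ val K (prev K t) ∧ Claimed K (prev K t)) := by
  obtain ⟨s, k, hs, hc, he⟩ := h
  cases k with
  | zero => left; rw [← he]; exact hs
  | succ k =>
    right
    have e : prev K t = (step K)^[k] s := by
      rw [← he, Function.iterate_succ_apply', prev_step]
    rw [e]
    exact ⟨hc k (by omega), val_iter K hs.1 k (fun j hj => hc j (by omega)),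
      s, k, hs, fun j hj => hc j (by omega), rfl⟩

theorem not_claimed_of_prev {t : K.H × Bool} (hm : K.m t.1 ≠ 2) (h : ¬ cont K (prev K t)) :
    ¬ Claimed K t := by
  intro hc
  rcases claimed_prev K hc with h1 | h1
  · exact hm h1.2
  · exact h h1.1

/-- two steps back -/
theorem not_claimed_of_prev_prev {t : K.H × Bool} (hm : K.m t.1 ≠ 2)
    (hm' : K.m (prev K t).1 ≠ 2) (h : ¬ cont K (prev K (prev K t))) : ¬ Claimed K t := by
  intro hc
  rcases claimed_prev K hc with h1 | h1
  · exact hm h1.2
  · exact not_claimed_of_prev K hm' h h1.2.2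

/-- two claimed states on one strip: a start is never reached -/
theorem start_not_step {s t : K.H × Bool} {k : ℕ} (hs : start K s) (h : reach K s k t)
    (ht : K.m t.1 = 2) : k = 0 ∧ t = s := by
  by_cases hk : k = 0
  · subst hk; exact ⟨rfl, h.2.symm⟩
  · exfalso
    have := no_simple K hs k (by omega) h.1
    rw [h.2] at this
    exact this ht

end Pool.Agent.Helper31.KBC
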