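import Pool.Agent.Helper31.KBC.Count

/-!
# Kobon triangles: the range of a strip
-/

namespace Pool.Agent.Helper31.KBC

open Pool.Agent.Helper23.KB Pool.Agent.Helper77.KBL Finset

variable {n : ℕ} (K : KM n)

theorem fw_rv_iter (x : K.H) (N i : ℕ) (hi : i ≤ N) :
    (fw K)^[i] (K.rv ((fw K)^[N] x)) = K.rv ((fw K)^[N - i] x) := by
  induction i with
  | zero => rfl
  | succ i ih =>
    rw [Function.iterate_succ_apply', ih (by omega)]
    obtain ⟨q, hq⟩ : ∃ q, N - i = q + 1 := ⟨N - i - 1, by omega⟩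
    rw [hq, Function.iterate_succ_apply', fw_rv_fw, show N - (i + 1) = q by omega]

/-- **strip range**: let `t` be reached from the start `s` after `k ≥ 1` steps.
The line of `bet t` (it bounds the strip at the pivot of `t`) runs from the pivot of `t` to the
apex of `s`, and all its edges in between have a triangle on the side `t.2`. The other side of the
strip, the line of `gam t`, passes through the apex as well. -/
theorem range {s t : K.H × Bool} {k : ℕ} (hs : start K s) (hk : 0 < k) (h : reach K s k t) :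
    (∀ i ≤ k / 2, tr K t.2 ((fw K)^[i] (bet K t)) = true) ∧
    (if k % 2 = 1 then K.rv ((fw K)^[k / 2] (bet K t)) = a1 K s ∧ K.ln (gam K t) = K.ln (a0 K s)
      else K.rv ((fw K)^[k / 2] (bet K t)) = a0 K s ∧ K.ln (gam K t) = K.ln (a1 K s)) := by
  obtain ⟨hc, he⟩ := h
  have hm := m_three K hs k hc
  obtain ⟨k', rfl⟩ : ∃ k', k = k' + 1 := ⟨k - 1, by omega⟩
  have e2 : bet K t = gam K ((step K)^[k'] s) := by
    rw [← he, Function.iterate_succ_apply', bet_step]
  have g1 := gam_iter K hs k' (fun j hj => hc j (by omega)) (fun j hj h0 => hm j (by omega) h0)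
  have g2 := gam_iter K hs (k' + 1) hc hm
  rw [he] at g2
  have hsnd := snd_iter K s (k' + 1)
  rw [he] at hsnd
  rcases Nat.mod_two_eq_zero_or_one k' with hp | hp
  · rw [if_pos hp, ← e2] at g1
    rw [if_neg (by omega)] at g2 hsnd
    have e5 : (k' + 1) / 2 = k' / 2 := by omega
    have hb : ∀ i ≤ k' / 2, (fw K)^[i] (bet K t) = K.rv ((fw K)^[k' / 2 - i] (a1 K s)) := by
      intro i hi
      rw [g1]
      exact fw_rv_iter K _ _ i hi
    refine ⟨?_, ?_⟩
    · intro i hi
      rw [e5] at hi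
      rw [hb i hi, hsnd, tr_rv_eq]
      exact tr_row1 K hs (k' + 1) hc hm _ (by omega)
    · rw [if_pos (by omega), e5, hb _ le_rfl, K.rv_rv]
      refine ⟨by rw [Nat.sub_self]; rfl, ?_⟩
      rw [g2, K.ln_rv, ln_fw_iter]
  · rw [if_neg (by omega), ← e2] at g1
    rw [if_pos (by omega)] at g2 hsnd
    have e5 : (k' + 1) / 2 = k' / 2 + 1 := by omega
    have hb : ∀ i ≤ k' / 2 + 1, (fw K)^[i] (bet K t) =
        K.rv ((fw K)^[k' / 2 + 1 - i] (a0 K s)) := by
      intro i hi
      rw [g1]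
      exact fw_rv_iter K _ _ i hi
    refine ⟨?_, ?_⟩
    · intro i hi
      rw [e5] at hi
      have h1 := tr_row0 K hs (k' + 1) hc hm (k' / 2 + 1 - i) (by omega)
      have h2 := tr_rv K h1
      rw [Bool.not_not] at h2
      rw [hb i hi, hsnd]
      exact h2
    · rw [if_neg (by omega), e5, hb _ le_rfl, K.rv_rv]
      refine ⟨by rw [Nat.sub_self]; rfl, ?_⟩
      rw [g2, K.ln_rv, ln_fw_iter]

/-- the same without parity -/
theorem range' {s t : K.H × Bool} {k : ℕ} (hs : start K s) (hk : 0 < k) (h : reach K s k t) :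
    (∀ i ≤ k / 2, tr K t.2 ((fw K)^[i] (bet K t)) = true) ∧
    K.vt (K.rv ((fw K)^[k / 2] (bet K t))) = K.vt (a0 K s) ∧
    ∃ e : K.H, K.vt e = K.vt (a0 K s) ∧ K.ln e = K.ln (gam K t) := by
  obtain ⟨h1, h2⟩ := range K hs hk h
  refine ⟨h1, ?_⟩
  rcases Nat.mod_two_eq_zero_or_one k with hp | hp
  · rw [if_neg (by omega)] at h2
    exact ⟨by rw [h2.1], a1 K s, (vt_a0 K hs.1).symm, h2.2.symm⟩
  · rw [if_pos hp] at h2
    exact ⟨by rw [h2.1, vt_a0 K hs.1], a0 K s, rfl, h2.2.symm⟩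

/-- the position of the apex on the line of `bet t` -/
theorem range_ps {s t : K.H × Bool} {k : ℕ} (hs : start K s) (hk : 0 < k) (h : reach K s k t) :
    K.ps (K.rv ((fw K)^[k / 2] (bet K t))) =
      K.ps (bet K t) + (k / 2 + 1 : ℕ) * sg (K.dr (bet K t)) := by
  obtain ⟨h1, -⟩ := range K hs hk h
  have hr : ∀ j ≤ k / 2, K.rv ((fw K)^[j] (bet K t)) ≠ (fw K)^[j] (bet K t) :=
    fun j hj => tr_nr K (h1 j hj)
  obtain ⟨q1, q2⟩ := ps_fw_iter K (k / 2) (h := bet K t) (fun j hj => hr j (by omega))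
  rw [K.ps_rv _ (hr _ le_rfl), q1, q2]
  cases K.dr (bet K t) <;> simp [sg] <;> ring

end Pool.Agent.Helper31.KBC
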